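import Pool.Agent.H29.BP.BDFin
import Pool.Agent.H90.BP.SlotB
import Pool.Agent.H90.BP.SlotC

set_option autoImplicit false

namespace Pool.Agent.Results.MP_2d2db3_co.BoundedDegree

open H29.BP H90.BX

/-- Let `G` be a finite simple graph and `D` a drawing of `G` with `CR G` crossings. If every vertex is on at most four crossed edges
of `D`, or only every set `W` of vertices contains at most `2 |W|` crossed edges, then the biplanar crossing number of `G` is at most
`CR G / 4`. If every vertex is on at most `Δ ≥ 1` crossed edges of some such `D`, or all degrees of `G` are at most `Δ`, then it is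
at most `(3/8 - 1/(384 Δ³)) CR G`. -/
theorem result (V : Type) [Finite V] (G : SimpleGraph V) :
    (∀ D : Drawing G, D.cr = CR G →
      ((∀ v : V, {e ∈ crossedEdges D | v ∈ e}.ncard ≤ 4) ∨
        ∀ W : Set V, {e ∈ crossedEdges D | ∀ v ∈ e, v ∈ W}.ncard ≤ 2 * W.ncard) →
      4 * CR2 G ≤ CR G) ∧
    ∀ Δ : ℕ, 1 ≤ Δ → ((∀ v : V, (G.neighborSet v).ncard ≤ Δ) ∨
      ∃ D : Drawing G, D.cr = CR G ∧ ∀ v : V, {e ∈ crossedEdges D | v ∈ e}.ncard ≤ Δ) →
      (CR2 G : ℝ) ≤ (3 / 8 - 1 / (384 * (Δ : ℝ) ^ 3)) * CR G := by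
  refine ⟨fun D hD h => ?_, fun Δ hΔ h => ?_⟩
  · have h1 : ∀ W : Set V, {e ∈ crossedEdges D | ∀ v ∈ e, v ∈ W}.ncard ≤ 2 * W.ncard := by
      rcases h with h | h
      · exact span_of_deg D 2 h
      · exact h
    have h2 := sparse D hD 2 (by norm_num) h1
    omega
  · rcases h with h | ⟨D, hD, h⟩
    · exact bd2 G Δ hΔ h
    · refine bd1 D hD Δ hΔ fun v => (Set.ncard_le_ncard ?_ (Set.toFinite _)).trans (h v)
      rintro e ⟨he, hv, f, hf, hef, p, hp⟩
      exact ⟨⟨he, p, ⟨e, he, f, hf, hef, hp⟩, hp.1.1⟩, hv⟩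

end Pool.Agent.Results.MP_2d2db3_co.BoundedDegree
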