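import Pool.Agent.H90.BX.Bal2
import Pool.Agent.H90.BX.Root
import Pool.Agent.H90.BX.Seven
import Pool.Agent.H90.BP.Few

set_option autoImplicit false

namespace Pool.Agent.Results.MP_2d2db3_co.EveryGraph

open H29.BP H90.BX

/-- Let `G` be a finite simple graph with `n ≥ 1` vertices, `D` a drawing of `G` with the least number of crossings, `w` the number
of the vertices on crossed edges of `D` and `c_v` the number of the crossings of `D` on the edges at `v`. If `c_v ≤ c` for all `v`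
and `c ≥ 4` then `c CR₂ G ≤ (c - 4) CR G`. Always `8 CR₂ G + g ≤ 3 CR G` for each of the following numbers `g`: `w/7`;
`3 w² / (16 CR G)`; `c_v`; `2 CR G / |C|` for a non-empty set `C` of vertices which meets every edge; `6 CR G / n`;
`√(3 CR G) / 2`. -/
theorem result (V : Type) [Finite V] [Nonempty V] (G : SimpleGraph V) :
    (∀ D : Drawing G, D.cr = CR G →
      (∀ c : ℕ, 4 ≤ c →
        (∀ v : V, {p ∈ D.crossings | ∃ e ∈ G.edgeSet, v ∈ e ∧ p ∈ D.arc e}.ncard ≤ c) →
        c * CR2 G ≤ (c - 4) * CR G) ∧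
      8 * (CR2 G : ℝ) + (crossedVertices D).ncard / 7 ≤ 3 * CR G ∧
      8 * (CR2 G : ℝ) + 3 * (crossedVertices D).ncard ^ 2 / (16 * CR G) ≤ 3 * CR G ∧
      ∀ v : V, 8 * CR2 G + {p ∈ D.crossings | ∃ e ∈ G.edgeSet, v ∈ e ∧ p ∈ D.arc e}.ncard ≤
        3 * CR G) ∧
    (∀ C : Set V, C.Nonempty → (∀ e ∈ G.edgeSet, ∃ v ∈ C, v ∈ e) →
      8 * (CR2 G : ℝ) + 2 * CR G / C.ncard ≤ 3 * CR G) ∧
    8 * (CR2 G : ℝ) + 6 * CR G / Nat.card V ≤ 3 * CR G ∧
    8 * (CR2 G : ℝ) + √(3 * CR G) / 2 ≤ 3 * CR G := by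
  refine ⟨fun D hD => ⟨fun c hc h => few D hD c hc h, crossed_seven D hD, crossed_square D hD,
    fun v => master D hD v⟩, ?_, ?_, root_gain G⟩
  · intro C hC h
    classical
    have hfin : C.Finite := Set.toFinite C
    have h1 := cover G hfin.toFinset (by simpa using hC) 1 (by
      intro e he
      obtain ⟨v, hv, hve⟩ := h e he
      rw [Nat.one_le_iff_ne_zero, ← Nat.pos_iff_ne_zero, Finset.card_pos]
      exact ⟨v, Finset.mem_filter.2 ⟨hfin.mem_toFinset.2 hv, hve⟩⟩)
    rw [Set.ncard_eq_toFinset_card C hfin]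
    have h2 : (3 / 8 - ((1 : ℕ) : ℝ) / (4 * hfin.toFinset.card)) * CR G =
        3 / 8 * CR G - 1 / 8 * (2 * CR G / hfin.toFinset.card) := by
      push_cast
      have h3 : (0 : ℝ) < hfin.toFinset.card := by
        exact_mod_cast Finset.card_pos.2 (by simpa using hC)
      field_simp
      ring
    rw [h2] at h1
    linarith
  · have h1 := everyB G
    have h3 : (0 : ℝ) < Nat.card V := by exact_mod_cast Nat.card_pos
    have h2 : (3 / 8 - 3 / (4 * (Nat.card V : ℝ))) * CR G =
        3 / 8 * CR G - 1 / 8 * (6 * CR G / Nat.card V) := by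
      field_simp
      ring
    rw [h2] at h1
    linarith

end Pool.Agent.Results.MP_2d2db3_co.EveryGraph
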