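import Pool.Agent.H90.BX.TwoFin

set_option autoImplicit false

namespace Pool.Agent.Results.MP_2d2db3_co.TwoVertices

open H29.BP

/-- Let `v`, `w` be vertices of the finite simple graph `G` and let `G'` be `G` without `v`, `w`. If `G'` has a
homomorphism to the cycle of odd length `m ≥ 3`, then `CR₂ G ≤ (1/4 + 3/(4m)) CR G`. If `G'` is
bipartite, then `CR₂ G ≤ CR G / 4`. -/
theorem result (V : Type) [Finite V] (G : SimpleGraph V) (v w : V) :
    (∀ m : ℕ, Odd m → 3 ≤ m →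
      Nonempty (G.induce {u | u ≠ v ∧ u ≠ w} →g SimpleGraph.cycleGraph m) →
      (CR2 G : ℝ) ≤ (1 / 4 + 3 / (4 * (m : ℝ))) * CR G) ∧
    ((G.induce {u | u ≠ v ∧ u ≠ w}).Colorable 2 → 4 * CR2 G ≤ CR G) :=
  ⟨fun m hm hm3 h => H90.BX.two_hom G v w m hm hm3 h, fun h => H90.BX.two_bip G v w h⟩

end Pool.Agent.Results.MP_2d2db3_co.TwoVertices
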